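import Pool.Agent.H.MP_aefbf4_co.E

namespace Pool.Agent.Results.MP_aefbf4_co.No
open Pool.Agent.H.MP_aefbf4_co

theorem result : ∃ (V E : Type) (_ : DecidableEq E) (s t : E → V),
    Infinite V ∧ (∀ e, s e ≠ t e) ∧ (∀ v, {e | s e = v ∨ t e = v}.Finite) ∧
    (∀ v, Comp s t ∅ v = Set.univ) ∧
    (∀ v, BreakerWins s t 208 8 v ∅) ∧ ∃ v F, ¬ BreakerWins s t 208 8 v F :=
  ⟨Option Ed, Ed, inferInstance, sr, some, inferInstance, noloop, locfin, conn, breaker, none, maker⟩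

end Pool.Agent.Results.MP_aefbf4_co.No
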